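import Mathlib
import Pool.Agent.U506.SP.G7
set_option autoImplicit false

/-!
# Stein's restriction conjecture: densities of bounded variation along parallels

For an orthonormal basis `b` of `ℝ³` the parallel at height `t ∈ (-1, 1)` about the axis `b 2` is the
circle `θ ↦ √(1-t²) cos θ b 0 + √(1-t²) sin θ b 1 + t b 2` on the unit sphere. We consider the
densities `G` on the sphere which are bounded by `M` and have total variation at most `M` along each
parallel about some axis, for instance the indicator functions of the measurable sets which meet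
every parallel in an arc. Nothing is assumed across the parallels: the dependence on `t` is only
measurable.

* For every `q > 3`, the full range of Stein's conjecture for the sphere in `ℝ³`, the Fourier
  transform of `G dσ` is in `L^q(ℝ³)` with norm at most `C(q) M`, and the same holds for the
  superpositions `∑ e^{i⟨η_j, x⟩} G_j(x)`, `∑ M_j < ∞`, where the axis may depend on `j`.
* For `n ≥ 4` and `q > 2n/(n-1)`, the full range in `ℝ^n`, this holds for the functions
  `G(√(1 - ⟨v₀,x⟩² - ⟨v₁,x⟩²), ⟨v₀,x⟩, ⟨v₁,x⟩)`, `v₀, v₁` orthonormal vectors of `ℝ^n`, `G` as above,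
  and their superpositions.
* For `n ≥ 3` and `q > 2n/(n-1)` this holds for the functions `F(⟨u,x⟩, ⟨v,x⟩)` of two orthogonal
  coordinates, `u, v` orthonormal, if `F` is measurable with `|F| ≤ M` on the disc and for every
  `s ∈ (-1, 1)` the function `F(s, ·)` has total variation at most `M` on its chord of the disc, and
  for their superpositions.

The proof: in polar coordinates of the horizontal plane, the integral over a parallel is an
oscillatory integral with the phase `ρ √(1-t²) cos(θ - α)`, which is split into the contribution of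
the two stationary points `θ = α, α + π` and a remainder. The stationary points do not depend on
`t`, and their contribution is estimated for each `α` by the theorem for functions which are rough in
one variable (starting library, project `TH335.RF`). The remainder is estimated in the mean over `α`,
for the indicator functions of intervals and then, by superposition, for functions of bounded
variation.
-/

namespace Pool.Agent.Results.MP_6cbfb8_an.AlongParallels

open MeasureTheory Set Metric Complex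
open Pool.Agent.H438R2.PD (T_meas' T_congr)
open Pool.Agent.H789R2.FR (E sg T sg_finite sg_ae)
open Pool.Agent.U515.LF (shadow shadow_meas lift_shadow' exists_P_full T_mod)
open Pool.Agent.TH335.RF (mink)
open scoped ENNReal RealInnerProductSpace

/-- surface measure on the unit sphere -/
noncomputable def sigma (n : ℕ) : Measure (sphere (0 : E n) 1) := (volume : Measure (E n)).toSphere

/-- the Fourier transform of the measure `g dσ` -/
noncomputable def ft {n : ℕ} (g : sphere (0 : E n) 1 → ℂ) (ξ : E n) : ℂ :=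
  ∫ x, Complex.exp (-(2 * Real.pi * ⟪(x : E n), ξ⟫ : ℝ) * I) * g x ∂(sigma n)

/-- the point with angle `θ` on the parallel at height `t` about the axis `b 2` -/
noncomputable def parallel (b : Fin 3 → E 3) (t θ : ℝ) : E 3 :=
  (√(1 - t ^ 2) * Real.cos θ) • b 0 + (√(1 - t ^ 2) * Real.sin θ) • b 1 + t • b 2

/-- Densities on the unit sphere of `ℝ³` which are bounded by `M` and have total variation at most
`M` along each parallel about some axis (`b 2` for an orthonormal basis `b`). Only the values of `G`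
on the sphere matter. -/
def AlongPar (M : ℝ) (G : E 3 → ℂ) : Prop :=
  Measurable G ∧ (∀ x, ‖x‖ = 1 → ‖G x‖ ≤ M) ∧
  ∃ b : Fin 3 → E 3, Orthonormal ℝ b ∧ ∀ t ∈ Ioo (-1 : ℝ) 1,
    eVariationOn (fun θ => G (parallel b t θ)) (Icc (-Real.pi) Real.pi) ≤ ENNReal.ofReal M

/-- the point `(√(1 - ⟨v₀,x⟩² - ⟨v₁,x⟩²), ⟨v₀,x⟩, ⟨v₁,x⟩)` of `ℝ³`, on the unit sphere if `v₀`, `v₁`
are orthonormal and `x` is on the unit sphere -/
noncomputable def point {n : ℕ} (v : Fin 2 → E n) (x : E n) : E 3 :=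
  WithLp.toLp 2 ![√(1 - (⟪v 0, x⟫ : ℝ) ^ 2 - (⟪v 1, x⟫ : ℝ) ^ 2), (⟪v 0, x⟫ : ℝ), (⟪v 1, x⟫ : ℝ)]

/-- the functions `x ↦ H(√(1 - ⟨v₀,x⟩² - ⟨v₁,x⟩²), ⟨v₀,x⟩, ⟨v₁,x⟩)` on the unit sphere of `ℝ^n`
with `H` as above and `v₀, v₁` orthonormal -/
def Lifted (n : ℕ) (M : ℝ) (G : E n → ℂ) : Prop :=
  ∃ (v : Fin 2 → E n) (H : E 3 → ℂ), Orthonormal ℝ v ∧ AlongPar M H ∧ G = fun x => H (point v x)

/-- the functions `F(⟨v₀,x⟩, ⟨v₁,x⟩)` with `v₀, v₁` orthonormal and `F` measurable, bounded by `M` on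
the unit disc, and of total variation at most `M` in the second variable on each chord `{s} × ...`
of the disc -/
def TwoCoord (n : ℕ) (M : ℝ) (G : E n → ℂ) : Prop :=
  ∃ (v : Fin 2 → E n) (F : ℝ → ℝ → ℂ), Orthonormal ℝ v ∧ Measurable (Function.uncurry F) ∧
    (∀ s t, s ^ 2 + t ^ 2 ≤ 1 → ‖F s t‖ ≤ M) ∧
    (∀ s ∈ Ioo (-1 : ℝ) 1,
      eVariationOn (F s) (Icc (-√(1 - s ^ 2)) (√(1 - s ^ 2))) ≤ ENNReal.ofReal M) ∧
    G = fun x => F ⟪v 0, x⟫ ⟪v 1, x⟫

/-- The estimate with exponent `q` for all superpositions `∑_j e^{i⟨η_j, x⟩} G_j(x)` of modulated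
functions `G_j` of the class `K` with constants `M_j`, `∑ M_j < ∞`. -/
def Bound (n : ℕ) (q : ℝ) (K : ℝ → (E n → ℂ) → Prop) : Prop := ∃ C : ℝ, 0 < C ∧
  ∀ M : ℕ → ℝ, (∀ j, 0 ≤ M j) → Summable M →
  ∀ (η : ℕ → E n) (G : ℕ → E n → ℂ), (∀ j, K (M j) (G j)) →
  ∀ g : sphere (0 : E n) 1 → ℂ,
    (∀ᵐ x ∂(sigma n), g x = ∑' j, Complex.exp ((⟪η j, (x : E n)⟫ : ℝ) * I) * G j (x : E n)) →
    MemLp (ft g) (ENNReal.ofReal q) ∧
    eLpNorm (ft g) (ENNReal.ofReal q) ≤ ENNReal.ofReal (C * ∑' j, M j)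

/-! ### Proofs -/

theorem ft_eq {n : ℕ} (G : E n → ℂ) (hG : Measurable G) (ξ : E n) :
    ft (fun x : sphere (0 : E n) 1 => G x) ξ = T G ((2 * Real.pi) • ξ) := by
  unfold T ft
  have m1 : Measurable fun w : E n =>
      Complex.exp (-((⟪(2 * Real.pi) • ξ, w⟫ : ℝ) : ℂ) * I) * G w := by
    have h2 : Measurable fun z : E n => (⟪(2 * Real.pi) • ξ, z⟫ : ℝ) :=
      (by fun_prop : Continuous _).measurable
    exact (Complex.measurable_exp.comp ((Complex.measurable_ofReal.comp h2).neg.mul_const I)).mul hG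
  simp only [sg]
  rw [integral_map measurable_subtype_coe.aemeasurable m1.aestronglyMeasurable]
  apply integral_congr_ae
  refine Filter.Eventually.of_forall fun x => ?_
  simp only
  rw [real_inner_smul_left, real_inner_comm]

theorem scale {n : ℕ} (f : E n → ℝ≥0∞) (hf : Measurable f) :
    ∫⁻ ξ : E n, f ((2 * Real.pi) • ξ) =
      ENNReal.ofReal ((2 * Real.pi) ^ n)⁻¹ * ∫⁻ z, f z := by
  have h2pi : (2 * Real.pi) ≠ 0 := by positivity
  have h3 := Measure.map_addHaar_smul (volume : Measure (E n)) h2pi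
  have h4 : ∫⁻ x : E n, f x ∂(Measure.map ((2 * Real.pi) • · : E n → E n) volume) =
      ∫⁻ ξ : E n, f ((2 * Real.pi) • ξ) := lintegral_map hf (measurable_const_smul _)
  rw [← h4, h3, lintegral_smul_measure, smul_eq_mul, finrank_euclideanSpace_fin,
    abs_of_nonneg (by positivity)]

theorem ft_meas {n : ℕ} (G : E n → ℂ) (hG : Measurable G) :
    Measurable (ft fun x : sphere (0 : E n) 1 => G x) := by
  have hfun : ft (fun x : sphere (0 : E n) 1 => G x) = fun ξ => T G ((2 * Real.pi) • ξ) :=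
    funext fun ξ => ft_eq G hG ξ
  rw [hfun]
  have h1 : Measurable fun x : E n => (2 * Real.pi) • x := measurable_const_smul _
  have hTm : Measurable (T G) := T_meas' G hG
  have h2 := Measurable.comp hTm h1
  exact h2

theorem ft_int {n : ℕ} (q : ℝ) (G : E n → ℂ) (hG : Measurable G) :
    ∫⁻ ξ, ‖ft (fun x : sphere (0 : E n) 1 => G x) ξ‖ₑ ^ q ≤ ∫⁻ z, ‖T G z‖ₑ ^ q := by
  have hfun : ft (fun x : sphere (0 : E n) 1 => G x) = fun ξ => T G ((2 * Real.pi) • ξ) :=
    funext fun ξ => ft_eq G hG ξ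
  rw [hfun, scale (fun z => ‖T G z‖ₑ ^ q) ((T_meas' G hG).enorm.pow_const q)]
  have h5 : ENNReal.ofReal ((2 * Real.pi) ^ n)⁻¹ ≤ 1 := by
    rw [ENNReal.ofReal_le_one]
    apply inv_le_one_of_one_le₀
    apply one_le_pow₀
    linarith [Real.pi_gt_three]
  calc _ ≤ 1 * ∫⁻ z, ‖T G z‖ₑ ^ q := by gcongr
    _ = _ := one_mul _

/-- from the operator for one function to the superpositions -/
theorem bound_of {n : ℕ} {q : ℝ} (hq : 1 ≤ q) (K : ℝ → (E n → ℂ) → Prop)
    (hm : ∀ M G, K M G → Measurable G) (hb : ∀ M G, K M G → ∀ x, ‖x‖ = 1 → ‖G x‖ ≤ M)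
    (hT : ∃ C : ℝ, 0 < C ∧ ∀ M G, 0 < M → K M G →
      ∫⁻ z, ‖T (fun x => ((M⁻¹ : ℝ) : ℂ) * G x) z‖ₑ ^ q ≤ ENNReal.ofReal C) : Bound n q K := by
  have hq0 : 0 < q := by linarith
  obtain ⟨C, hC, hT⟩ := hT
  refine ⟨C ^ (1 / q), by positivity, fun M hM0 hM η G hK g hg => ?_⟩
  -- one term
  set Gj : ℕ → E n → ℂ := fun j x => Complex.exp ((⟪η j, x⟫ : ℝ) * I) * G j x with hGj
  have hGjm : ∀ j, Measurable (Gj j) := by
    intro j
    have h2 : Measurable fun x : E n => (⟪η j, x⟫ : ℝ) := by fun_prop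
    exact (Complex.measurable_exp.comp ((Complex.measurable_ofReal.comp h2).mul_const I)).mul
      (hm _ _ (hK j))
  have hGjb : ∀ j x, ‖x‖ = 1 → ‖Gj j x‖ ≤ M j := by
    intro j x hx
    rw [hGj]
    simp only [norm_mul, Complex.norm_exp_ofReal_mul_I, one_mul]
    exact hb _ _ (hK j) x hx
  set gj : ℕ → sphere (0 : E n) 1 → ℂ := fun j x => Gj j (x : E n) with hgj
  have hgjm : ∀ j, Measurable (gj j) := fun j => (hGjm j).comp measurable_subtype_coe
  have hgjb : ∀ j (x : sphere (0 : E n) 1), ‖gj j x‖ ≤ M j := by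
    intro j x
    exact hGjb j x (by simpa using x.2)
  have hone : ∀ j, (∫⁻ ξ, ‖ft (gj j) ξ‖ₑ ^ q) ^ (1 / q) ≤ ENNReal.ofReal (C ^ (1 / q) * M j) := by
    intro j
    have h1 : ∫⁻ ξ, ‖ft (gj j) ξ‖ₑ ^ q ≤ ENNReal.ofReal (M j ^ q * C) := by
      refine (ft_int q (Gj j) (hGjm j)).trans ?_
      rcases (hM0 j).eq_or_lt with h0 | h0
      · have h2 : ∀ z, T (Gj j) z = 0 := by
          intro z
          unfold T
          have h3 : ∀ᵐ w ∂(sg n), Complex.exp (-((⟪z, w⟫ : ℝ) : ℂ) * I) * Gj j w = 0 := by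
            filter_upwards [sg_ae n] with w hw
            have h4 := hGjb j w hw
            rw [← h0] at h4
            rw [norm_le_zero_iff.1 h4, mul_zero]
          rw [integral_congr_ae h3]
          simp
        have h5 : ∀ z, ‖T (Gj j) z‖ₑ ^ q = 0 := by
          intro z
          rw [h2 z, enorm_zero, ENNReal.zero_rpow_of_pos hq0]
        simp only [h5, lintegral_zero]
        exact zero_le
      · have h2 : ∫⁻ z, ‖T (Gj j) z‖ₑ ^ q = ∫⁻ z, ‖T (G j) z‖ₑ ^ q := T_mod (η j) (G j) q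
        have h3 : ∀ z, ‖T (G j) z‖ₑ ^ q = ENNReal.ofReal (M j ^ q) *
            ‖T (fun x => (((M j)⁻¹ : ℝ) : ℂ) * G j x) z‖ₑ ^ q := by
          intro z
          have h4 : T (G j) z = (M j : ℂ) * T (fun x => (((M j)⁻¹ : ℝ) : ℂ) * G j x) z := by
            unfold T
            rw [← integral_const_mul]
            refine integral_congr_ae (Filter.Eventually.of_forall fun w => ?_)
            simp only
            have h5 : ((M j : ℝ) : ℂ) * (((M j)⁻¹ : ℝ) : ℂ) = 1 := by
              rw [← Complex.ofReal_mul, mul_inv_cancel₀ h0.ne', Complex.ofReal_one]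
            calc Complex.exp (-((⟪z, w⟫ : ℝ) : ℂ) * I) * G j w
                = (((M j : ℝ) : ℂ) * (((M j)⁻¹ : ℝ) : ℂ)) *
                  (Complex.exp (-((⟪z, w⟫ : ℝ) : ℂ) * I) * G j w) := by rw [h5, one_mul]
              _ = _ := by ring
          rw [h4, enorm_mul, ENNReal.mul_rpow_of_nonneg _ _ hq0.le, ← ofReal_norm (M j : ℂ),
            Complex.norm_real, Real.norm_of_nonneg h0.le,
            ENNReal.ofReal_rpow_of_nonneg h0.le hq0.le]
        rw [h2]
        simp only [h3]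
        rw [lintegral_const_mul' _ _ ENNReal.ofReal_ne_top, ENNReal.ofReal_mul (by positivity)]
        gcongr
        exact hT _ _ h0 (hK j)
    refine (ENNReal.rpow_le_rpow h1 (by positivity)).trans (le_of_eq ?_)
    rw [ENNReal.ofReal_rpow_of_nonneg (mul_nonneg (Real.rpow_nonneg (hM0 j) _) hC.le)
      (by positivity), Real.mul_rpow (Real.rpow_nonneg (hM0 j) _) hC.le, ← Real.rpow_mul (hM0 j),
      mul_one_div_cancel hq0.ne', Real.rpow_one, mul_comm]
  -- the sum
  have hfin : IsFiniteMeasure (sigma n) := by unfold sigma; infer_instance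
  have hsum : ∀ ξ, ft g ξ = ∑' j, ft (gj j) ξ := by
    intro ξ
    unfold ft
    have hen : ∀ (j : ℕ) (x : sphere (0 : E n) 1),
        ‖Complex.exp (-(2 * Real.pi * ⟪(x : E n), ξ⟫ : ℝ) * I) * gj j x‖ₑ ≤
          ENNReal.ofReal (M j) := by
      intro j x
      rw [← ofReal_norm]
      apply ENNReal.ofReal_le_ofReal
      have h3 : -(((2 * Real.pi * ⟪(x : E n), ξ⟫ : ℝ)) : ℂ) * I =
          ((-(2 * Real.pi * ⟪(x : E n), ξ⟫) : ℝ) : ℂ) * I := by push_cast; ring
      rw [norm_mul, h3, Complex.norm_exp_ofReal_mul_I, one_mul]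
      exact hgjb j x
    have hexm : Measurable fun x : sphere (0 : E n) 1 =>
        Complex.exp (-(2 * Real.pi * ⟪(x : E n), ξ⟫ : ℝ) * I) := by
      have h4 : Continuous fun x : sphere (0 : E n) 1 =>
        Complex.exp (-(2 * Real.pi * ⟪(x : E n), ξ⟫ : ℝ) * I) := by fun_prop
      exact h4.measurable
    rw [← integral_tsum]
    · refine integral_congr_ae ?_
      filter_upwards [hg] with x hx
      rw [hx, ← tsum_mul_left]
    · exact fun j => (hexm.mul (hgjm j)).aestronglyMeasurable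
    · have h5 : ∑' j, ∫⁻ x, ‖Complex.exp (-(2 * Real.pi * ⟪(x : E n), ξ⟫ : ℝ) * I) *
          gj j x‖ₑ ∂(sigma n) ≤ ∑' j, ENNReal.ofReal (M j) * sigma n univ := by
        apply ENNReal.tsum_le_tsum
        intro j
        calc _ ≤ ∫⁻ _x, ENNReal.ofReal (M j) ∂(sigma n) := lintegral_mono (hen j)
          _ = _ := by rw [lintegral_const]
      refine (h5.trans_lt ?_).ne
      rw [ENNReal.tsum_mul_right, ← ENNReal.ofReal_tsum_of_nonneg hM0 hM]
      exact ENNReal.mul_lt_top ENNReal.ofReal_lt_top (measure_lt_top _ _)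
  have hftm : ∀ j, Measurable (ft (gj j)) := fun j => ft_meas (Gj j) (hGjm j)
  have hfun : ft g = fun ξ => ∑' j, ft (gj j) ξ := funext hsum
  have hmeas : Measurable (ft g) := by
    rw [hfun]
    exact Measurable.tsum hftm
  have hle : ∫⁻ ξ, ‖ft g ξ‖ₑ ^ q ≤ (ENNReal.ofReal (C ^ (1 / q) * ∑' j, M j)) ^ q := by
    calc ∫⁻ ξ, ‖ft g ξ‖ₑ ^ q ≤ ∫⁻ ξ, (∑' j, ‖ft (gj j) ξ‖ₑ) ^ q := by
          apply lintegral_mono
          intro ξ
          simp only
          rw [hsum]
          exact ENNReal.rpow_le_rpow enorm_tsum_le_tsum_enorm hq0.le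
      _ ≤ (∑' j, (∫⁻ ξ, ‖ft (gj j) ξ‖ₑ ^ q) ^ (1 / q)) ^ q :=
          mink volume q hq (fun j ξ => ‖ft (gj j) ξ‖ₑ) fun j => (hftm j).enorm
      _ ≤ (∑' j, ENNReal.ofReal (C ^ (1 / q) * M j)) ^ q :=
          ENNReal.rpow_le_rpow (ENNReal.tsum_le_tsum hone) hq0.le
      _ = _ := by
          rw [← ENNReal.ofReal_tsum_of_nonneg (fun j => mul_nonneg (by positivity) (hM0 j))
            (hM.mul_left _), tsum_mul_left]
  have hnorm : eLpNorm (ft g) (ENNReal.ofReal q) ≤
      ENNReal.ofReal (C ^ (1 / q) * ∑' j, M j) := by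
    rw [eLpNorm_eq_lintegral_rpow_enorm_toReal (by simpa using hq0) ENNReal.ofReal_ne_top,
      ENNReal.toReal_ofReal hq0.le]
    refine (ENNReal.rpow_le_rpow hle (by positivity)).trans (le_of_eq ?_)
    rw [← ENNReal.rpow_mul, mul_one_div_cancel hq0.ne', ENNReal.rpow_one]
  exact ⟨⟨hmeas.aestronglyMeasurable, hnorm.trans_lt ENNReal.ofReal_lt_top⟩, hnorm⟩

theorem var_smul (c : ℝ) (hc : 0 ≤ c) (f : ℝ → ℂ) (s : Set ℝ) :
    eVariationOn (fun θ => (c : ℂ) * f θ) s ≤ ENNReal.ofReal c * eVariationOn f s := by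
  have hL : LipschitzWith c.toNNReal fun z : ℂ => (c : ℂ) * z := by
    apply LipschitzWith.of_dist_le_mul
    intro z w
    rw [dist_eq_norm, dist_eq_norm, ← mul_sub, norm_mul, Complex.norm_real,
      Real.norm_of_nonneg hc, Real.coe_toNNReal _ hc]
  have h := (hL.lipschitzOnWith (s := univ)).comp_eVariationOn_le (g := f) (s := s)
    (mapsTo_univ _ _)
  exact h

/-- normalisation -/
theorem along_norm {M : ℝ} (hM : 0 < M) {G : E 3 → ℂ} (h : AlongPar M G) :
    AlongPar 1 fun x => ((M⁻¹ : ℝ) : ℂ) * G x := by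
  obtain ⟨hm, hb, b, hbo, hv⟩ := h
  have hMi : 0 ≤ M⁻¹ := inv_nonneg.2 hM.le
  refine ⟨hm.const_mul _, fun x hx => ?_, b, hbo, fun t ht => ?_⟩
  · rw [norm_mul, Complex.norm_real, Real.norm_of_nonneg hMi]
    rw [inv_mul_le_iff₀ hM, mul_one]
    exact hb x hx
  · refine (var_smul _ hMi _ _).trans ?_
    calc ENNReal.ofReal M⁻¹ * eVariationOn (fun θ => G (parallel b t θ)) (Icc (-Real.pi) Real.pi)
        ≤ ENNReal.ofReal M⁻¹ * ENNReal.ofReal M := by
          gcongr
          exact hv t ht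
      _ = _ := by rw [← ENNReal.ofReal_mul hMi, inv_mul_cancel₀ hM.ne']

theorem T3' {q : ℝ} (hq : 3 < q) : ∃ C : ℝ, 0 < C ∧ ∀ G : E 3 → ℂ, AlongPar 1 G →
    ∫⁻ x, ‖T G x‖ₑ ^ q ≤ ENNReal.ofReal C := by
  obtain ⟨C, hC, h⟩ := Pool.Agent.U506.SP.T3 hq
  refine ⟨C, hC, ?_⟩
  rintro G ⟨hm, hb, b, hbo, hv⟩
  refine h b hbo G hm hb fun t ht => ?_
  have h1 := hv t ht
  rw [ENNReal.ofReal_one] at h1
  exact h1

theorem point_eq {n : ℕ} (v : Fin 2 → E n) (x : E n) : point v x = (shadow v x : E 3) := by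
  unfold point shadow
  ext i
  fin_cases i
  · change √(1 - (⟪v 0, x⟫ : ℝ) ^ 2 - (⟪v 1, x⟫ : ℝ) ^ 2) =
      Fin.append (fun _ : Fin 1 => √(1 - ∑ i, (⟪v i, x⟫ : ℝ) ^ 2)) (fun i => (⟪v i, x⟫ : ℝ))
        (Fin.castAdd 2 0)
    rw [Fin.append_left, Fin.sum_univ_two, sub_sub]
  · change (⟪v 0, x⟫ : ℝ) =
      Fin.append (fun _ : Fin 1 => √(1 - ∑ i, (⟪v i, x⟫ : ℝ) ^ 2)) (fun i => (⟪v i, x⟫ : ℝ))
        (Fin.natAdd 1 0)
    rw [Fin.append_right]
  · change (⟪v 1, x⟫ : ℝ) =
      Fin.append (fun _ : Fin 1 => √(1 - ∑ i, (⟪v i, x⟫ : ℝ) ^ 2)) (fun i => (⟪v i, x⟫ : ℝ))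
        (Fin.natAdd 1 1)
    rw [Fin.append_right]

theorem point_meas {n : ℕ} (v : Fin 2 → E n) : Measurable (point v) := by
  have h : (point v : E n → E 3) = (shadow v : E n → E 3) := funext fun x => point_eq v x
  rw [h]
  exact shadow_meas v

theorem bessel {n : ℕ} {v : Fin 2 → E n} (hv : Orthonormal ℝ v) {x : E n} (hx : ‖x‖ = 1) :
    (⟪v 0, x⟫ : ℝ) ^ 2 + (⟪v 1, x⟫ : ℝ) ^ 2 ≤ 1 := by
  have h := hv.sum_inner_products_le (s := Finset.univ) x
  rw [Fin.sum_univ_two, hx, one_pow] at h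
  simpa using h

theorem point_norm {n : ℕ} {v : Fin 2 → E n} (hv : Orthonormal ℝ v) {x : E n} (hx : ‖x‖ = 1) :
    ‖point v x‖ = 1 := by
  have h0 := bessel hv hx
  have h1 : ‖point v x‖ ^ 2 = 1 := by
    unfold point
    rw [EuclideanSpace.real_norm_sq_eq, Fin.sum_univ_three]
    change √(1 - (⟪v 0, x⟫ : ℝ) ^ 2 - (⟪v 1, x⟫ : ℝ) ^ 2) ^ 2 + (⟪v 0, x⟫ : ℝ) ^ 2 +
      (⟪v 1, x⟫ : ℝ) ^ 2 = 1
    rw [Real.sq_sqrt (by linarith)]
    ring
  have h2 := norm_nonneg (point v x)
  nlinarith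

/-- the lifted densities -/
theorem T_lift {n : ℕ} (hn : 4 ≤ n) {q : ℝ} (hq : 2 * (n : ℝ) / (n - 1) < q) :
    ∃ C : ℝ, 0 < C ∧ ∀ v : Fin 2 → E n, Orthonormal ℝ v → ∀ H : E 3 → ℂ, AlongPar 1 H →
    ∫⁻ z, ‖T (fun x => H (point v x)) z‖ₑ ^ q ≤ ENNReal.ofReal C := by
  obtain ⟨P, hP2, hP3, hPq⟩ := exists_P_full n 2 (by norm_num) (by omega) q hq
  have hP : 3 < P := by
    have : 2 * ((1 + 2 : ℕ) : ℝ) / ((1 + 2 : ℕ) - 1) = 3 := by norm_num
    rwa [this] at hP3
  obtain ⟨A, hA, hT⟩ := T3' hP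
  obtain ⟨C, hC, hl⟩ := lift_shadow' n 2 (by norm_num) (by omega) P q hP2 A hA hPq
  refine ⟨C, hC, fun v hv H hH => ?_⟩
  have hTH := hT H hH
  obtain ⟨hm, hb, -⟩ := hH
  -- cut off outside the sphere
  set H1 : E 3 → ℂ := ({x : E 3 | ‖x‖ = 1} : Set (E 3)).indicator H with hH1
  have hH1m : Measurable H1 :=
    hm.indicator (measurableSet_eq_fun measurable_norm measurable_const)
  have hH1b : ∀ x, ‖H1 x‖ ≤ 1 := by
    intro x
    by_cases h : ‖x‖ = 1
    · rw [hH1, indicator_of_mem (show x ∈ {x : E 3 | ‖x‖ = 1} from h)]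
      exact hb x h
    · rw [hH1, indicator_of_notMem (show x ∉ {x : E 3 | ‖x‖ = 1} from h), norm_zero]
      exact zero_le_one
  have hTG : ∀ x, T H1 x = T H x := by
    intro x
    refine T_congr H1 H ?_ x
    filter_upwards [sg_ae 3] with z hz
    rw [hH1, indicator_of_mem (show z ∈ {x : E 3 | ‖x‖ = 1} from hz)]
  have h1 : ∫⁻ z, ‖T H1 z‖ₑ ^ P ≤ ENNReal.ofReal A := by
    simp only [hTG]
    exact hTH
  have h2 := hl v hv H1 hH1m hH1b h1
  have h3 : ∀ z, T (fun x => H (point v x)) z = T (fun x : E n => H1 (shadow v x)) z := by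
    intro z
    refine T_congr _ _ ?_ z
    filter_upwards [sg_ae n] with x hx
    rw [← point_eq v x, hH1, indicator_of_mem (show point v x ∈ {x : E 3 | ‖x‖ = 1} from
      point_norm hv hx)]
  simp only [h3]
  exact h2

/-- functions of two coordinates in `ℝ³` -/
theorem along_two {M : ℝ} {b : Fin 3 → E 3} (hb : Orthonormal ℝ b) {F : ℝ → ℝ → ℂ}
    (hF : Measurable (Function.uncurry F)) (hFb : ∀ s t, s ^ 2 + t ^ 2 ≤ 1 → ‖F s t‖ ≤ M)
    (hM : 0 ≤ M)
    (hFv : ∀ s ∈ Ioo (-1 : ℝ) 1,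
      eVariationOn (F s) (Icc (-√(1 - s ^ 2)) (√(1 - s ^ 2))) ≤ ENNReal.ofReal M) :
    AlongPar (2 * M) fun x => F ⟪b 2, x⟫ ⟪b 0, x⟫ := by
  refine ⟨?_, fun x hx => ?_, b, hb, fun t ht => ?_⟩
  · have h1 : Measurable fun x : E 3 => (((⟪b 2, x⟫ : ℝ), (⟪b 0, x⟫ : ℝ)) : ℝ × ℝ) := by fun_prop
    exact hF.comp h1
  · have h1 := hb.sum_inner_products_le (s := Finset.univ) x
    rw [Fin.sum_univ_three, hx, one_pow] at h1
    simp only [Real.norm_eq_abs, sq_abs] at h1
    have h2 := hFb ⟪b 2, x⟫ ⟪b 0, x⟫ (by nlinarith [sq_nonneg (⟪b 1, x⟫ : ℝ)])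
    linarith
  · have e1 : ∀ θ, (⟪b 2, parallel b t θ⟫ : ℝ) = t := by
      intro θ
      unfold parallel
      rw [inner_add_right, inner_add_right, inner_smul_right, inner_smul_right, inner_smul_right,
        hb.inner_eq_zero (by decide : (2 : Fin 3) ≠ 0),
        hb.inner_eq_zero (by decide : (2 : Fin 3) ≠ 1), real_inner_self_eq_norm_sq, hb.1 2]
      ring
    have e2 : ∀ θ, (⟪b 0, parallel b t θ⟫ : ℝ) = √(1 - t ^ 2) * Real.cos θ := by
      intro θ
      unfold parallel
      rw [inner_add_right, inner_add_right, inner_smul_right, inner_smul_right, inner_smul_right,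
        hb.inner_eq_zero (by decide : (0 : Fin 3) ≠ 1),
        hb.inner_eq_zero (by decide : (0 : Fin 3) ≠ 2), real_inner_self_eq_norm_sq, hb.1 0]
      ring
    simp only [e1, e2]
    refine (Pool.Agent.U506.SP.var_cos (F := F t) (Real.sqrt_nonneg _)).trans ?_
    calc 2 * eVariationOn (F t) (Icc (-√(1 - t ^ 2)) (√(1 - t ^ 2)))
        ≤ 2 * ENNReal.ofReal M := by
          gcongr
          exact hFv t ht
      _ = _ := by
          rw [ENNReal.ofReal_mul (by norm_num)]
          norm_num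

/-- completing two orthonormal vectors -/
theorem complete {v : Fin 2 → E 3} (hv : Orthonormal ℝ v) :
    ∃ b : Fin 3 → E 3, Orthonormal ℝ b ∧ b 2 = v 0 ∧ b 0 = v 1 := by
  set v' : Fin 3 → E 3 := ![v 1, 0, v 0] with hv'
  have hne : v 0 ≠ v 1 := by
    intro h
    have h1 := hv.2 (show (0 : Fin 2) ≠ 1 by decide)
    simp only at h1
    rw [← h, real_inner_self_eq_norm_sq, hv.1 0] at h1
    norm_num at h1
  set s : Set (Fin 3) := {0, 2} with hs
  have e0 : v' 0 = v 1 := rfl
  have e2 : v' 2 = v 0 := rfl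
  have h1 : Orthonormal ℝ (fun i : s => v' i) := by
    constructor
    · rintro ⟨i, hi⟩
      rcases hi with rfl | rfl
      · exact hv.1 1
      · exact hv.1 0
    · rintro ⟨i, hi⟩ ⟨j, hj⟩ hij
      have hij' : i ≠ j := fun h => hij (Subtype.ext h)
      rcases hi with rfl | rfl <;> rcases hj with rfl | rfl
      · exact absurd rfl hij'
      · exact hv.2 (show (1 : Fin 2) ≠ 0 by decide)
      · exact hv.2 (show (0 : Fin 2) ≠ 1 by decide)
      · exact absurd rfl hij'
  obtain ⟨b, hb⟩ := h1.exists_orthonormalBasis_extension_of_card_eq (by simp)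
  refine ⟨b, b.orthonormal, ?_, ?_⟩
  · have := hb 2 (by simp [hs])
    simpa [hv'] using this
  · have := hb 0 (by simp [hs])
    simpa [hv'] using this

/-- **Theorem.** (1) For all `q > 3` the estimate holds for the superpositions of modulated densities
of bounded variation along parallels on the unit sphere of `ℝ³`. (2) For `n ≥ 4` and `q > 2n/(n-1)`
it holds for the superpositions of their modulated lifts to the unit sphere of `ℝ^n`. (3) For
`n ≥ 3` and `q > 2n/(n-1)` it holds for the superpositions of modulated functions of two orthogonal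
coordinates which are of bounded variation in one of them and only measurable in the other. -/
theorem result (q : ℝ) :
    (3 < q → Bound 3 q AlongPar) ∧
    (∀ n : ℕ, 4 ≤ n → 2 * (n : ℝ) / (n - 1) < q → Bound n q (Lifted n)) ∧
    (∀ n : ℕ, 3 ≤ n → 2 * (n : ℝ) / (n - 1) < q → Bound n q (TwoCoord n)) := by
  have hq1 : ∀ n : ℕ, 3 ≤ n → 2 * (n : ℝ) / (n - 1) < q → 1 ≤ q := by
    intro n hn hq
    have hn' : (3 : ℝ) ≤ n := by exact_mod_cast hn
    rw [div_lt_iff₀ (by linarith)] at hq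
    nlinarith
  refine ⟨fun hq => ?_, fun n hn hq => ?_, fun n hn hq => ?_⟩
  · refine bound_of (by linarith) AlongPar (fun M G h => h.1) (fun M G h => h.2.1) ?_
    obtain ⟨C, hC, h⟩ := T3' hq
    exact ⟨C, hC, fun M G hM hG => h _ (along_norm hM hG)⟩
  · refine bound_of (hq1 n (by omega) hq) (Lifted n) ?_ ?_ ?_
    · rintro M G ⟨v, H, hv, hH, rfl⟩
      exact hH.1.comp (point_meas v)
    · rintro M G ⟨v, H, hv, hH, rfl⟩ x hx
      exact hH.2.1 _ (point_norm hv hx)
    · obtain ⟨C, hC, h⟩ := T_lift hn hq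
      refine ⟨C, hC, ?_⟩
      rintro M G hM ⟨v, H, hv, hH, rfl⟩
      exact h v hv _ (along_norm hM hH)
  · refine bound_of (hq1 n hn hq) (TwoCoord n) ?_ ?_ ?_
    · rintro M G ⟨v, F, hv, hF, hFb, hFv, rfl⟩
      have h1 : Measurable fun x : E n => (((⟪v 0, x⟫ : ℝ), (⟪v 1, x⟫ : ℝ)) : ℝ × ℝ) := by fun_prop
      exact hF.comp h1
    · rintro M G ⟨v, F, hv, hF, hFb, hFv, rfl⟩ x hx
      exact hFb _ _ (bessel hv hx)
    · -- a factor 2 for the variation
      have key : ∃ C : ℝ, 0 < C ∧ ∀ M G, 0 < M → TwoCoord n M G →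
          ∫⁻ z, ‖T (fun x => (((2 * M)⁻¹ : ℝ) : ℂ) * G x) z‖ₑ ^ q ≤ ENNReal.ofReal C := by
        rcases hn.eq_or_lt with h3 | h4
        · subst h3
          have hq3 : 3 < q := by
            have : 2 * ((3 : ℕ) : ℝ) / ((3 : ℕ) - 1) = 3 := by norm_num
            rwa [this] at hq
          obtain ⟨C, hC, h⟩ := T3' hq3
          refine ⟨C, hC, ?_⟩
          rintro M G hM ⟨v, F, hv, hF, hFb, hFv, rfl⟩
          obtain ⟨b, hb, hb2, hb0⟩ := complete hv
          have h5 := along_norm (by positivity) (along_two hb hF hFb hM.le hFv)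
          rw [hb2, hb0] at h5
          exact h _ h5
        · obtain ⟨C, hC, h⟩ := T_lift (show 4 ≤ n by omega) hq
          refine ⟨C, hC, ?_⟩
          rintro M G hM ⟨v, F, hv, hF, hFb, hFv, rfl⟩
          -- the basis `e₂, e₀, e₁` of `ℝ³`
          set e : Fin 3 → E 3 := fun i => EuclideanSpace.single i 1 with he
          have heo : Orthonormal ℝ e := EuclideanSpace.orthonormal_single
          set b : Fin 3 → E 3 := ![e 2, e 0, e 1] with hb
          have hbo : Orthonormal ℝ b := by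
            have h6 : b = e ∘ ![2, 0, 1] := by
              funext i
              fin_cases i <;> rfl
            rw [h6]
            exact heo.comp _ (by decide)
          have h5 := along_norm (by positivity) (along_two hbo hF hFb hM.le hFv)
          have h7 := h v hv _ h5
          have h8 : (fun x => (((2 * M)⁻¹ : ℝ) : ℂ) * F ⟪b 2, point v x⟫ ⟪b 0, point v x⟫) =
              fun x => (((2 * M)⁻¹ : ℝ) : ℂ) * F ⟪v 0, x⟫ ⟪v 1, x⟫ := by
            funext x
            have h9 : (⟪b 2, point v x⟫ : ℝ) = ⟪v 0, x⟫ := by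
              have h11 : b 2 = EuclideanSpace.single 1 1 := rfl
              rw [h11, EuclideanSpace.inner_single_left]
              simp [point]
            have h10 : (⟪b 0, point v x⟫ : ℝ) = ⟪v 1, x⟫ := by
              have h11 : b 0 = EuclideanSpace.single 2 1 := rfl
              rw [h11, EuclideanSpace.inner_single_left]
              simp [point]
            rw [h9, h10]
          rw [h8] at h7
          exact h7
      obtain ⟨C, hC, hkey⟩ := key
      have hq0 : 0 < q := by linarith [hq1 n hn hq]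
      refine ⟨2 ^ q * C, by positivity, fun M G hM hG => ?_⟩
      have h1 : ∀ z, ‖T (fun x => ((M⁻¹ : ℝ) : ℂ) * G x) z‖ₑ ^ q = ENNReal.ofReal (2 ^ q) *
          ‖T (fun x => (((2 * M)⁻¹ : ℝ) : ℂ) * G x) z‖ₑ ^ q := by
        intro z
        have h4 : T (fun x => ((M⁻¹ : ℝ) : ℂ) * G x) z =
            2 * T (fun x => (((2 * M)⁻¹ : ℝ) : ℂ) * G x) z := by
          unfold T
          rw [← integral_const_mul]
          refine integral_congr_ae (Filter.Eventually.of_forall fun w => ?_)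
          simp only
          push_cast
          ring
        rw [h4, enorm_mul, ENNReal.mul_rpow_of_nonneg _ _ hq0.le]
        congr 1
        rw [← ofReal_norm, ENNReal.ofReal_rpow_of_nonneg (norm_nonneg _) hq0.le]
        norm_num
      simp only [h1]
      rw [lintegral_const_mul' _ _ ENNReal.ofReal_ne_top, ENNReal.ofReal_mul (by positivity)]
      gcongr
      exact hkey M G hM hG

end Pool.Agent.Results.MP_6cbfb8_an.AlongParallels
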