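import Mathlib
import Pool.Agent.U515.LF.A7
set_option autoImplicit false

/-!
# Stein's restriction conjecture: densities with conical structure

Stein's conjecture is true, with uniform bounds in the full range `q > 2n/(n-1)`, for all densities
`h(∑ a_i |P_i x| + ⟪b, x⟫)` on the unit sphere of `ℝ^n`, `n ≥ 3`, where the `P_i` are the orthogonal
projections onto any number of mutually orthogonal subspaces of dimension at least two, `b` is
orthogonal to these subspaces and `h` is any bounded measurable function; also after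
multiplication with `exp(i(∑ c_i |P_i x| + ⟪η, x⟫))`, and for absolutely convergent
superpositions of such densities for varying subspaces. This contains all ridge functions and all
functions of `|P x|`, i.e. all bounded densities with the symmetry `O(k) × O(n-k)`.
-/

namespace Pool.Agent.Results.MP_6cbfb8_an.ConicalDensities

open MeasureTheory Set Metric Complex
open Pool.Agent.TH335.RF (mink)
open Pool.Agent.H438R2.PD (T_meas')
open Pool.Agent.H789R2.FR (E sg T sg_finite)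
open Pool.Agent.U515.LF
open scoped ENNReal RealInnerProductSpace

/-- surface measure on the unit sphere -/
noncomputable def sigma (n : ℕ) : Measure (sphere (0 : E n) 1) := (volume : Measure (E n)).toSphere

/-- the Fourier transform of the measure `g dσ` -/
noncomputable def ft {n : ℕ} (g : sphere (0 : E n) 1 → ℂ) (ξ : E n) : ℂ :=
  ∫ x, Complex.exp (-(2 * Real.pi * ⟪(x : E n), ξ⟫ : ℝ) * I) * g x ∂(sigma n)

/-- The function `∑ a_i |P_i x| + ⟪b, x⟫`, where `P_i` is the orthogonal projection onto `V_i`. -/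
noncomputable def cone {n r : ℕ} (V : Fin r → Submodule ℝ (E n)) (a : Fin r → ℝ) (b x : E n) : ℝ :=
  ∑ i, a i * ‖(V i).starProjection x‖ + ⟪b, x⟫

/-- The density `g` on the unit sphere of `ℝ^n` is a superposition
`g(x) = ∑_j exp(i(∑ c_i |P_i x| + ⟪η, x⟫)) h(∑ a_i |P_i x| + ⟪b, x⟫)`, where for each `j` the
`P_i` are the orthogonal projections onto mutually orthogonal subspaces `V_i` of dimension at least
two, `b` is orthogonal to all `V_i`, and `h` is a measurable function on the line with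
`|h| ≤ M_j`. -/
def Conical {n : ℕ} (M : ℕ → ℝ) (g : sphere (0 : E n) 1 → ℂ) : Prop :=
  ∃ (r : ℕ → ℕ) (V : ∀ j, Fin (r j) → Submodule ℝ (E n)) (a c : ∀ j, Fin (r j) → ℝ)
    (b η : ℕ → E n) (h : ℕ → ℝ → ℂ),
    (∀ j i, 2 ≤ Module.finrank ℝ (V j i)) ∧ (∀ j i i', i ≠ i' → V j i ⟂ V j i') ∧
    (∀ j i, b j ∈ (V j i)ᗮ) ∧ (∀ j, Measurable (h j)) ∧ (∀ j s, ‖h j s‖ ≤ M j) ∧
    ∀ᵐ x ∂(sigma n), g x = ∑' j, Complex.exp ((cone (V j) (c j) (η j) (x : E n) : ℝ) * I) *
      h j (cone (V j) (a j) (b j) (x : E n))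

/-! ### Proofs -/

theorem ft_eq {n : ℕ} (G : E n → ℂ) (hG : Measurable G) (ξ : E n) :
    ft (fun x : sphere (0 : E n) 1 => G x) ξ = T G ((2 * Real.pi) • ξ) := by
  unfold T ft
  have m1 : Measurable fun w : E n =>
      Complex.exp (-((⟪(2 * Real.pi) • ξ, w⟫ : ℝ) : ℂ) * I) * G w := by
    have h2 : Measurable fun z : E n => (⟪(2 * Real.pi) • ξ, z⟫ : ℝ) :=
      (by fun_prop : Continuous _).measurable
    exact (Complex.measurable_exp.comp ((Complex.measurable_ofReal.comp h2).neg.mul_const I)).mul hG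
  simp only [sg]
  rw [integral_map measurable_subtype_coe.aemeasurable m1.aestronglyMeasurable]
  apply integral_congr_ae
  refine Filter.Eventually.of_forall fun x => ?_
  simp only
  rw [real_inner_smul_left, real_inner_comm]

theorem scale {n : ℕ} (f : E n → ℝ≥0∞) (hf : Measurable f) :
    ∫⁻ ξ : E n, f ((2 * Real.pi) • ξ) =
      ENNReal.ofReal ((2 * Real.pi) ^ n)⁻¹ * ∫⁻ z, f z := by
  have h2pi : (2 * Real.pi) ≠ 0 := by positivity
  have h3 := Measure.map_addHaar_smul (volume : Measure (E n)) h2pi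
  have h4 : ∫⁻ x : E n, f x ∂(Measure.map ((2 * Real.pi) • · : E n → E n) volume) =
      ∫⁻ ξ : E n, f ((2 * Real.pi) • ξ) := lintegral_map hf (measurable_const_smul _)
  rw [← h4, h3, lintegral_smul_measure, smul_eq_mul, finrank_euclideanSpace_fin,
    abs_of_nonneg (by positivity)]

theorem ft_meas {n : ℕ} (G : E n → ℂ) (hG : Measurable G) :
    Measurable (ft fun x : sphere (0 : E n) 1 => G x) := by
  have hfun : ft (fun x : sphere (0 : E n) 1 => G x) = fun ξ => T G ((2 * Real.pi) • ξ) :=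
    funext fun ξ => ft_eq G hG ξ
  rw [hfun]
  have h1 : Measurable fun x : E n => (2 * Real.pi) • x := measurable_const_smul _
  have hTm : Measurable (T G) := T_meas' G hG
  have h2 := Measurable.comp hTm h1
  exact h2

theorem ft_int {n : ℕ} (q : ℝ) (G : E n → ℂ) (hG : Measurable G) :
    ∫⁻ ξ, ‖ft (fun x : sphere (0 : E n) 1 => G x) ξ‖ₑ ^ q =
      ENNReal.ofReal ((2 * Real.pi) ^ n)⁻¹ * ∫⁻ z, ‖T G z‖ₑ ^ q := by
  have hfun : ft (fun x : sphere (0 : E n) 1 => G x) = fun ξ => T G ((2 * Real.pi) • ξ) :=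
    funext fun ξ => ft_eq G hG ξ
  rw [hfun]
  exact scale (fun z => ‖T G z‖ₑ ^ q) ((T_meas' G hG).enorm.pow_const q)

theorem two_pi_le (n : ℕ) : ENNReal.ofReal ((2 * Real.pi) ^ n)⁻¹ ≤ 1 := by
  rw [ENNReal.ofReal_le_one]
  apply inv_le_one_of_one_le₀
  apply one_le_pow₀
  linarith [Real.pi_gt_three]

theorem ft_smul {n : ℕ} (c : ℂ) (g : sphere (0 : E n) 1 → ℂ) (ξ : E n) :
    ft (fun x => c * g x) ξ = c * ft g ξ := by
  unfold ft
  rw [← integral_const_mul]
  refine integral_congr_ae (Filter.Eventually.of_forall fun x => ?_)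
  simp only
  ring

/-- subspaces and orthonormal families -/
theorem cone_eq {n r : ℕ} (V : Fin r → Submodule ℝ (E n)) (a : Fin r → ℝ) (b x : E n) :
    cone V a b x = psi (fun i => Module.finrank ℝ (V i))
      (fun i j => (stdOrthonormalBasis ℝ (V i) j : E n)) a b x := by
  unfold cone psi
  congr 1
  refine Finset.sum_congr rfl fun i _ => ?_
  congr 1
  unfold nrm
  set p : V i := ⟨(V i).starProjection x, (V i).starProjection_apply_mem x⟩ with hp
  have h1 := (stdOrthonormalBasis ℝ (V i)).sum_sq_norm_inner_right p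
  have h2 : ∀ j, (⟪stdOrthonormalBasis ℝ (V i) j, p⟫ : ℝ) =
      ⟪(stdOrthonormalBasis ℝ (V i) j : E n), x⟫ := by
    intro j
    change (⟪(stdOrthonormalBasis ℝ (V i) j : E n), (V i).starProjection x⟫ : ℝ) = _
    rw [← Submodule.inner_starProjection_left_eq_right,
      Submodule.starProjection_eq_self_iff.2 (stdOrthonormalBasis ℝ (V i) j).2]
  simp only [h2, Real.norm_eq_abs, sq_abs] at h1
  rw [h1]
  have h3 : ‖p‖ = ‖(V i).starProjection x‖ := rfl
  rw [h3, Real.sqrt_sq (norm_nonneg _)]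

theorem adm_of {n r : ℕ} (V : Fin r → Submodule ℝ (E n)) (b : E n)
    (h2 : ∀ i, 2 ≤ Module.finrank ℝ (V i)) (ho : ∀ i i', i ≠ i' → V i ⟂ V i')
    (hb : ∀ i, b ∈ (V i)ᗮ) : Adm (fun i => Module.finrank ℝ (V i))
      (fun i j => (stdOrthonormalBasis ℝ (V i) j : E n)) b := by
  refine ⟨h2, ⟨?_, ?_⟩, ?_⟩
  · rintro ⟨i, j⟩
    exact (stdOrthonormalBasis ℝ (V i)).orthonormal.1 j
  · rintro ⟨i, j⟩ ⟨i', j'⟩ hne
    by_cases hi : i = i'
    · subst hi
      have hj : j ≠ j' := fun h => hne (by rw [h])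
      exact (stdOrthonormalBasis ℝ (V i)).orthonormal.2 hj
    · exact (Submodule.isOrtho_iff_inner_eq.1 (ho i i' hi)) _ (Subtype.coe_prop _) _
        (Subtype.coe_prop _)
  · intro i j
    exact (Submodule.mem_orthogonal _ _).1 (hb i) _ (Subtype.coe_prop _)

/-- one term of the superposition -/
theorem one_term {n : ℕ} (q : ℝ) (hq : 0 < q) (C : ℝ) (hC : 0 < C)
    (hcl : ∀ (r : ℕ) (d : Fin r → ℕ) (u : ∀ i, Fin (d i) → E n) (c : Fin r → ℝ) (η : E n)
      (a : Fin r → ℝ) (b : E n) (h : ℝ → ℂ), Adm d u b → Measurable h → (∀ s, ‖h s‖ ≤ 1) →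
      ∫⁻ z, ‖T (cf d u c η a b h) z‖ₑ ^ q ≤ ENNReal.ofReal C)
    {r : ℕ} (V : Fin r → Submodule ℝ (E n)) (a c : Fin r → ℝ) (b η : E n)
    (h2 : ∀ i, 2 ≤ Module.finrank ℝ (V i)) (ho : ∀ i i', i ≠ i' → V i ⟂ V i')
    (hb : ∀ i, b ∈ (V i)ᗮ) (h : ℝ → ℂ) (hh : Measurable h) (M : ℝ) (hM : ∀ s, ‖h s‖ ≤ M) :
    ∃ G : E n → ℂ, Measurable G ∧ (∀ x, ‖G x‖ ≤ M) ∧
      (∀ x, Complex.exp ((cone V c η x : ℝ) * I) * h (cone V a b x) = G x) ∧
      Measurable (ft fun x : sphere (0 : E n) 1 => G x) ∧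
      (∫⁻ ξ, ‖ft (fun x : sphere (0 : E n) 1 => G x) ξ‖ₑ ^ q) ^ (1 / q) ≤
        ENNReal.ofReal (C ^ (1 / q) * M) := by
  have hM0 : 0 ≤ M := (norm_nonneg _).trans (hM 0)
  set d : Fin r → ℕ := fun i => Module.finrank ℝ (V i) with hd
  set u : ∀ i, Fin (d i) → E n := fun i j => (stdOrthonormalBasis ℝ (V i) j : E n) with hu
  have hadm : Adm d u b := adm_of V b h2 ho hb
  have hco : ∀ (a : Fin r → ℝ) (b x : E n), cone V a b x = psi d u a b x :=
    fun a b x => cone_eq V a b x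
  set h' : ℝ → ℂ := fun s => ((M⁻¹ : ℝ) : ℂ) * h s with hh'
  have hh'm : Measurable h' := hh.const_mul _
  have hh'1 : ∀ s, ‖h' s‖ ≤ 1 := by
    intro s
    rw [hh']
    simp only [norm_mul, Complex.norm_real, Real.norm_of_nonneg (inv_nonneg.2 hM0)]
    rcases hM0.eq_or_lt with h0 | h0
    · rw [← h0]; simp
    · rw [inv_mul_le_iff₀ h0, mul_one]
      exact hM _
  have hhh' : ∀ s, h s = (M : ℂ) * h' s := by
    intro s
    rw [hh']
    rcases hM0.eq_or_lt with h0 | h0
    · have h1 := hM s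
      rw [← h0] at h1
      have h2 : h s = 0 := norm_le_zero_iff.1 h1
      simp [h2]
    · simp only
      rw [← mul_assoc, ← Complex.ofReal_mul, mul_inv_cancel₀ h0.ne', Complex.ofReal_one, one_mul]
  have hcfm := cf_meas d u c η a b h' hh'm
  refine ⟨fun x => (M : ℂ) * cf d u c η a b h' x, hcfm.const_mul _, ?_, ?_,
    ft_meas _ (hcfm.const_mul _), ?_⟩
  · intro x
    rw [norm_mul, Complex.norm_real, Real.norm_of_nonneg hM0]
    calc M * ‖cf d u c η a b h' x‖ ≤ M * 1 := by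
          gcongr
          exact cf_le d u c η a b h' hh'1 x
      _ = M := mul_one M
  · intro x
    rw [hco, hco, hhh']
    unfold cf
    ring
  have h1 : ∫⁻ ξ, ‖ft (fun x : sphere (0 : E n) 1 => (M : ℂ) * cf d u c η a b h' x) ξ‖ₑ ^ q ≤
      ENNReal.ofReal (M ^ q * C) := by
    calc ∫⁻ ξ, ‖ft (fun x : sphere (0 : E n) 1 => (M : ℂ) * cf d u c η a b h' x) ξ‖ₑ ^ q
        = ∫⁻ ξ, ENNReal.ofReal (M ^ q) *
          ‖ft (fun x : sphere (0 : E n) 1 => cf d u c η a b h' x) ξ‖ₑ ^ q := by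
          refine lintegral_congr fun ξ => ?_
          rw [ft_smul, enorm_mul, ENNReal.mul_rpow_of_nonneg _ _ hq.le, ← ofReal_norm (M : ℂ),
            Complex.norm_real, Real.norm_of_nonneg hM0, ENNReal.ofReal_rpow_of_nonneg hM0 hq.le]
      _ = ENNReal.ofReal (M ^ q) *
          ∫⁻ ξ, ‖ft (fun x : sphere (0 : E n) 1 => cf d u c η a b h' x) ξ‖ₑ ^ q :=
          lintegral_const_mul' _ _ ENNReal.ofReal_ne_top
      _ ≤ ENNReal.ofReal (M ^ q) * ENNReal.ofReal C := by
          gcongr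
          rw [ft_int q _ hcfm]
          calc _ ≤ 1 * ∫⁻ z, ‖T (cf d u c η a b h') z‖ₑ ^ q := by
                gcongr
                exact two_pi_le n
            _ ≤ _ := by rw [one_mul]; exact hcl r d u c η a b h' hadm hh'm hh'1
      _ = _ := by rw [← ENNReal.ofReal_mul (by positivity)]
  refine (ENNReal.rpow_le_rpow h1 (by positivity)).trans (le_of_eq ?_)
  rw [ENNReal.ofReal_rpow_of_nonneg (by positivity) (by positivity),
    Real.mul_rpow (by positivity) hC.le, ← Real.rpow_mul hM0, mul_one_div_cancel hq.ne',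
    Real.rpow_one, mul_comm]

/-- superpositions -/
theorem conical (n : ℕ) (hn : 3 ≤ n) (q : ℝ) (hq : 2 * (n : ℝ) / (n - 1) < q) :
    ∃ C : ℝ, 0 < C ∧ ∀ M : ℕ → ℝ, Summable M → ∀ g : sphere (0 : E n) 1 → ℂ, Conical M g →
      MemLp (ft g) (ENNReal.ofReal q) ∧
      eLpNorm (ft g) (ENNReal.ofReal q) ≤ ENNReal.ofReal (C * ∑' j, M j) := by
  have hn' : (3 : ℝ) ≤ n := by exact_mod_cast hn
  have hq2 : 2 < q := by
    refine lt_of_lt_of_le' hq ?_
    rw [le_div_iff₀ (by linarith)]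
    linarith
  have hq0 : 0 < q := by linarith
  obtain ⟨C, hC, hcl⟩ := class_bound n hn q hq
  refine ⟨C ^ (1 / q), by positivity, ?_⟩
  rintro M hM g ⟨r, V, a, c, b, η, h, h2, ho, hb, hh, hhM, hg⟩
  have hM0 : ∀ j, 0 ≤ M j := fun j => (norm_nonneg _).trans (hhM j 0)
  have hone := fun j => one_term q hq0 C hC hcl (V j) (a j) (c j) (b j) (η j) (h2 j) (ho j) (hb j)
    (h j) (hh j) (M j) (hhM j)
  choose G hGm hGb hGe hftm hone using hone
  set gj : ℕ → sphere (0 : E n) 1 → ℂ := fun j x => G j x with hgj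
  have hfin : IsFiniteMeasure (sigma n) := by unfold sigma; infer_instance
  have hgjm : ∀ j, Measurable (gj j) := fun j => (hGm j).comp measurable_subtype_coe
  have hsum : ∀ ξ, ft g ξ = ∑' j, ft (gj j) ξ := by
    intro ξ
    unfold ft
    have hen : ∀ (j : ℕ) (x : sphere (0 : E n) 1),
        ‖Complex.exp (-(2 * Real.pi * ⟪(x : E n), ξ⟫ : ℝ) * I) * gj j x‖ₑ ≤
          ENNReal.ofReal (M j) := by
      intro j x
      rw [← ofReal_norm]
      apply ENNReal.ofReal_le_ofReal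
      have h3 : -(((2 * Real.pi * ⟪(x : E n), ξ⟫ : ℝ)) : ℂ) * I =
          ((-(2 * Real.pi * ⟪(x : E n), ξ⟫) : ℝ) : ℂ) * I := by push_cast; ring
      rw [norm_mul, h3, Complex.norm_exp_ofReal_mul_I, one_mul]
      exact hGb j x
    have hexm : Measurable fun x : sphere (0 : E n) 1 =>
        Complex.exp (-(2 * Real.pi * ⟪(x : E n), ξ⟫ : ℝ) * I) := by
      have h4 : Continuous fun x : sphere (0 : E n) 1 =>
        Complex.exp (-(2 * Real.pi * ⟪(x : E n), ξ⟫ : ℝ) * I) := by fun_prop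
      exact h4.measurable
    rw [← integral_tsum]
    · refine integral_congr_ae ?_
      filter_upwards [hg] with x hx
      rw [hx, ← tsum_mul_left]
      refine tsum_congr fun j => ?_
      rw [hGe]
    · exact fun j => (hexm.mul (hgjm j)).aestronglyMeasurable
    · have h5 : ∑' j, ∫⁻ x, ‖Complex.exp (-(2 * Real.pi * ⟪(x : E n), ξ⟫ : ℝ) * I) *
          gj j x‖ₑ ∂(sigma n) ≤ ∑' j, ENNReal.ofReal (M j) * sigma n univ := by
        apply ENNReal.tsum_le_tsum
        intro j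
        calc _ ≤ ∫⁻ _x, ENNReal.ofReal (M j) ∂(sigma n) := lintegral_mono (hen j)
          _ = _ := by rw [lintegral_const]
      refine (h5.trans_lt ?_).ne
      rw [ENNReal.tsum_mul_right, ← ENNReal.ofReal_tsum_of_nonneg hM0 hM]
      exact ENNReal.mul_lt_top ENNReal.ofReal_lt_top (measure_lt_top _ _)
  have hfun : ft g = fun ξ => ∑' j, ft (gj j) ξ := funext hsum
  have hmeas : Measurable (ft g) := by
    rw [hfun]
    exact Measurable.tsum fun j => hftm j
  have hle : ∫⁻ ξ, ‖ft g ξ‖ₑ ^ q ≤ (ENNReal.ofReal (C ^ (1 / q) * ∑' j, M j)) ^ q := by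
    calc ∫⁻ ξ, ‖ft g ξ‖ₑ ^ q ≤ ∫⁻ ξ, (∑' j, ‖ft (gj j) ξ‖ₑ) ^ q := by
          apply lintegral_mono
          intro ξ
          simp only
          rw [hsum]
          exact ENNReal.rpow_le_rpow enorm_tsum_le_tsum_enorm hq0.le
      _ ≤ (∑' j, (∫⁻ ξ, ‖ft (gj j) ξ‖ₑ ^ q) ^ (1 / q)) ^ q :=
          mink volume q (by linarith) (fun j ξ => ‖ft (gj j) ξ‖ₑ) fun j => (hftm j).enorm
      _ ≤ (∑' j, ENNReal.ofReal (C ^ (1 / q) * M j)) ^ q :=
          ENNReal.rpow_le_rpow (ENNReal.tsum_le_tsum fun j => hone j) hq0.le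
      _ = _ := by
          rw [← ENNReal.ofReal_tsum_of_nonneg (fun j => mul_nonneg (by positivity) (hM0 j))
            (hM.mul_left _), tsum_mul_left]
  have hnorm : eLpNorm (ft g) (ENNReal.ofReal q) ≤
      ENNReal.ofReal (C ^ (1 / q) * ∑' j, M j) := by
    rw [eLpNorm_eq_lintegral_rpow_enorm_toReal (by simpa using hq0) ENNReal.ofReal_ne_top,
      ENNReal.toReal_ofReal hq0.le]
    refine (ENNReal.rpow_le_rpow hle (by positivity)).trans (le_of_eq ?_)
    rw [← ENNReal.rpow_mul, mul_one_div_cancel hq0.ne', ENNReal.rpow_one]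
  exact ⟨⟨hmeas.aestronglyMeasurable, hnorm.trans_lt ENNReal.ofReal_lt_top⟩, hnorm⟩

/-- **Theorem.** Let `n ≥ 3` and `q > 2n/(n-1)`. There is `C = C(n, q)` such that for all
superpositions `g = ∑_j exp(i(∑ c_i |P_i x| + ⟪η, x⟫)) h(∑ a_i |P_i x| + ⟪b, x⟫)` as in
`Conical`, the Fourier transform of `g dσ` is in `L^q(ℝ^n)`, with norm at most `C ∑ M_j`. -/
theorem result (n : ℕ) (hn : 3 ≤ n) (q : ℝ) (hq : 2 * (n : ℝ) / (n - 1) < q) :
    ∃ C : ℝ, 0 < C ∧ ∀ M : ℕ → ℝ, Summable M → ∀ g : sphere (0 : E n) 1 → ℂ, Conical M g →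
      MemLp (ft g) (ENNReal.ofReal q) ∧
      eLpNorm (ft g) (ENNReal.ofReal q) ≤ ENNReal.ofReal (C * ∑' j, M j) :=
  conical n hn q hq

end Pool.Agent.Results.MP_6cbfb8_an.ConicalDensities
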