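import Mathlib
import Pool.Agent.U515.LF.A7
set_option autoImplicit false

/-!
# Stein's restriction conjecture: lifting densities to spheres of higher dimension

Let `1 ≤ m ≤ n - 2` and let `v_1, …, v_m` be orthonormal vectors of `ℝ^n`. A bounded measurable
function `G` on the unit sphere `S^m` of `ℝ^(1+m)` has a lift to the unit sphere of `ℝ^n`,
`(lift v G)(x) = G(√(1 - ∑ ⟪v_i, x⟫²), ⟪v_1, x⟫, …, ⟪v_m, x⟫)`: with `P` the orthogonal projection
onto the span of the `v_i` this is the function `G(|x - P x|, P x)`, the function `G` rotated about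
the `m`-dimensional axis.

* (lifting principle) If the Fourier transform of `G dσ` is in `L^P(ℝ^(1+m))`, then the Fourier
  transform of `lift v G dσ` is in `L^q(ℝ^n)` whenever `(q - 2)((n-m-1)/2 + 1/(P-2)) > 1`, with a
  bound which depends only on the `L^P` norm. In particular the conclusion of Stein's conjecture
  (the full range of exponents) for the one density `G` on `S^m` implies it for its lifts.
-/

namespace Pool.Agent.Results.MP_6cbfb8_an.RotationalLifts

open MeasureTheory Set Metric Complex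
open Pool.Agent.H438R2.PD (T_meas')
open Pool.Agent.H789R2.FR (E sg T sg_finite)
open Pool.Agent.U515.LF
open scoped ENNReal RealInnerProductSpace

/-- surface measure on the unit sphere -/
noncomputable def sigma (n : ℕ) : Measure (sphere (0 : E n) 1) := (volume : Measure (E n)).toSphere

/-- the Fourier transform of the measure `g dσ` -/
noncomputable def ft {n : ℕ} (g : sphere (0 : E n) 1 → ℂ) (ξ : E n) : ℂ :=
  ∫ x, Complex.exp (-(2 * Real.pi * ⟪(x : E n), ξ⟫ : ℝ) * I) * g x ∂(sigma n)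

/-- The conclusion of Stein's conjecture for the density `g` on the unit sphere of `ℝ^n`: the
Fourier transform of `g dσ` is in `L^p` for every `p > 2n/(n-1)`. -/
def Full (n : ℕ) (g : sphere (0 : E n) 1 → ℂ) : Prop :=
  ∀ p : ℝ, 2 * (n : ℝ) / (n - 1) < p → MemLp (ft g) (ENNReal.ofReal p)

/-- The lift of `G` along `v_1, …, v_m`, the function
`x ↦ G(√(1 - ∑ ⟪v_i, x⟫²), ⟪v_1, x⟫, …, ⟪v_m, x⟫)` on the unit sphere of `ℝ^n`. If the `v_i` are
orthonormal then the argument of `G` is a point of the unit sphere of `ℝ^(1+m)`, and only the values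
of `G` on this sphere matter. -/
noncomputable def lift {n m : ℕ} (v : Fin m → E n) (G : E (1 + m) → ℂ)
    (x : sphere (0 : E n) 1) : ℂ :=
  G (WithLp.toLp 2 (Fin.append (fun _ : Fin 1 => √(1 - ∑ i, (⟪v i, (x : E n)⟫ : ℝ) ^ 2))
    fun i => (⟪v i, (x : E n)⟫ : ℝ)))

/-! ### Proofs -/

theorem ft_eq {n : ℕ} (G : E n → ℂ) (hG : Measurable G) (ξ : E n) :
    ft (fun x : sphere (0 : E n) 1 => G x) ξ = T G ((2 * Real.pi) • ξ) := by
  unfold T ft
  have m1 : Measurable fun w : E n =>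
      Complex.exp (-((⟪(2 * Real.pi) • ξ, w⟫ : ℝ) : ℂ) * I) * G w := by
    have h2 : Measurable fun z : E n => (⟪(2 * Real.pi) • ξ, z⟫ : ℝ) :=
      (by fun_prop : Continuous _).measurable
    exact (Complex.measurable_exp.comp ((Complex.measurable_ofReal.comp h2).neg.mul_const I)).mul hG
  simp only [sg]
  rw [integral_map measurable_subtype_coe.aemeasurable m1.aestronglyMeasurable]
  apply integral_congr_ae
  refine Filter.Eventually.of_forall fun x => ?_
  simp only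
  rw [real_inner_smul_left, real_inner_comm]

theorem scale {n : ℕ} (f : E n → ℝ≥0∞) (hf : Measurable f) :
    ∫⁻ ξ : E n, f ((2 * Real.pi) • ξ) =
      ENNReal.ofReal ((2 * Real.pi) ^ n)⁻¹ * ∫⁻ z, f z := by
  have h2pi : (2 * Real.pi) ≠ 0 := by positivity
  have h3 := Measure.map_addHaar_smul (volume : Measure (E n)) h2pi
  have h4 : ∫⁻ x : E n, f x ∂(Measure.map ((2 * Real.pi) • · : E n → E n) volume) =
      ∫⁻ ξ : E n, f ((2 * Real.pi) • ξ) := lintegral_map hf (measurable_const_smul _)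
  rw [← h4, h3, lintegral_smul_measure, smul_eq_mul, finrank_euclideanSpace_fin,
    abs_of_nonneg (by positivity)]

theorem ft_meas {n : ℕ} (G : E n → ℂ) (hG : Measurable G) :
    Measurable (ft fun x : sphere (0 : E n) 1 => G x) := by
  have hfun : ft (fun x : sphere (0 : E n) 1 => G x) = fun ξ => T G ((2 * Real.pi) • ξ) :=
    funext fun ξ => ft_eq G hG ξ
  rw [hfun]
  have h1 : Measurable fun x : E n => (2 * Real.pi) • x := measurable_const_smul _
  have hTm : Measurable (T G) := T_meas' G hG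
  have h2 := Measurable.comp hTm h1
  exact h2

theorem ft_int {n : ℕ} (q : ℝ) (G : E n → ℂ) (hG : Measurable G) :
    ∫⁻ ξ, ‖ft (fun x : sphere (0 : E n) 1 => G x) ξ‖ₑ ^ q =
      ENNReal.ofReal ((2 * Real.pi) ^ n)⁻¹ * ∫⁻ z, ‖T G z‖ₑ ^ q := by
  have hfun : ft (fun x : sphere (0 : E n) 1 => G x) = fun ξ => T G ((2 * Real.pi) • ξ) :=
    funext fun ξ => ft_eq G hG ξ
  rw [hfun]
  exact scale (fun z => ‖T G z‖ₑ ^ q) ((T_meas' G hG).enorm.pow_const q)

theorem two_pi_le (n : ℕ) : ENNReal.ofReal ((2 * Real.pi) ^ n)⁻¹ ≤ 1 := by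
  rw [ENNReal.ofReal_le_one]
  apply inv_le_one_of_one_le₀
  apply one_le_pow₀
  linarith [Real.pi_gt_three]

/-- from the Fourier transform to the operator `T` -/
theorem T_of_ft {n : ℕ} (P : ℝ) (hP : 0 < P) (A : ℝ) (G : E n → ℂ) (hG : Measurable G)
    (h : eLpNorm (ft fun x : sphere (0 : E n) 1 => G x) (ENNReal.ofReal P) ≤ ENNReal.ofReal A) :
    ∫⁻ z, ‖T G z‖ₑ ^ P ≤ ENNReal.ofReal ((2 * Real.pi) ^ n * (|A| + 1) ^ P) := by
  have h2pi : 0 < (2 * Real.pi) ^ n := by positivity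
  have hA : 0 < |A| + 1 := by positivity
  rw [eLpNorm_eq_lintegral_rpow_enorm_toReal (by simpa using hP) ENNReal.ofReal_ne_top,
    ENNReal.toReal_ofReal hP.le, ft_int P G hG] at h
  have h2 : ENNReal.ofReal ((2 * Real.pi) ^ n)⁻¹ * ∫⁻ z, ‖T G z‖ₑ ^ P ≤
      ENNReal.ofReal ((|A| + 1) ^ P) := by
    have h3 := ENNReal.rpow_le_rpow h hP.le
    rw [← ENNReal.rpow_mul, one_div_mul_cancel hP.ne', ENNReal.rpow_one] at h3
    refine h3.trans ?_
    rw [← ENNReal.ofReal_rpow_of_nonneg hA.le hP.le]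
    apply ENNReal.rpow_le_rpow _ hP.le
    apply ENNReal.ofReal_le_ofReal
    linarith [le_abs_self A]
  calc ∫⁻ z, ‖T G z‖ₑ ^ P = ENNReal.ofReal ((2 * Real.pi) ^ n) *
        (ENNReal.ofReal ((2 * Real.pi) ^ n)⁻¹ * ∫⁻ z, ‖T G z‖ₑ ^ P) := by
        rw [← mul_assoc, ← ENNReal.ofReal_mul h2pi.le, mul_inv_cancel₀ h2pi.ne',
          ENNReal.ofReal_one, one_mul]
    _ ≤ ENNReal.ofReal ((2 * Real.pi) ^ n) * ENNReal.ofReal ((|A| + 1) ^ P) := by gcongr
    _ = _ := by rw [← ENNReal.ofReal_mul h2pi.le]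

/-- from the operator `T` to the Fourier transform -/
theorem ft_of_T {n : ℕ} (q : ℝ) (hq : 0 < q) (C : ℝ) (hC : 0 ≤ C) (G : E n → ℂ)
    (hG : Measurable G) (h : ∫⁻ z, ‖T G z‖ₑ ^ q ≤ ENNReal.ofReal C) :
    MemLp (ft fun x : sphere (0 : E n) 1 => G x) (ENNReal.ofReal q) ∧
    eLpNorm (ft fun x : sphere (0 : E n) 1 => G x) (ENNReal.ofReal q) ≤
      ENNReal.ofReal (C ^ (1 / q)) := by
  have h1 : ∫⁻ ξ, ‖ft (fun x : sphere (0 : E n) 1 => G x) ξ‖ₑ ^ q ≤ ENNReal.ofReal C := by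
    rw [ft_int q G hG]
    calc _ ≤ 1 * ∫⁻ z, ‖T G z‖ₑ ^ q := by
          gcongr
          exact two_pi_le n
      _ ≤ _ := by rw [one_mul]; exact h
  have hnorm : eLpNorm (ft fun x : sphere (0 : E n) 1 => G x) (ENNReal.ofReal q) ≤
      ENNReal.ofReal (C ^ (1 / q)) := by
    rw [eLpNorm_eq_lintegral_rpow_enorm_toReal (by simpa using hq) ENNReal.ofReal_ne_top,
      ENNReal.toReal_ofReal hq.le, ← ENNReal.ofReal_rpow_of_nonneg hC (by positivity)]
    exact ENNReal.rpow_le_rpow h1 (by positivity)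
  exact ⟨⟨(ft_meas G hG).aestronglyMeasurable, hnorm.trans_lt ENNReal.ofReal_lt_top⟩, hnorm⟩

/-- the lifting principle -/
theorem lifting (n m : ℕ) (hm : 1 ≤ m) (hmn : m + 2 ≤ n) (P q A : ℝ) (hP : 2 < P)
    (h : 1 < (q - 2) * (((n : ℝ) - m - 1) / 2 + 1 / (P - 2))) :
    ∃ C : ℝ, ∀ v : Fin m → E n, Orthonormal ℝ v → ∀ G : E (1 + m) → ℂ, Measurable G →
      (∀ y, ‖G y‖ ≤ 1) →
      eLpNorm (ft fun y : sphere (0 : E (1 + m)) 1 => G y) (ENNReal.ofReal P) ≤
        ENNReal.ofReal A →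
      MemLp (ft (lift v G)) (ENNReal.ofReal q) ∧
      eLpNorm (ft (lift v G)) (ENNReal.ofReal q) ≤ ENNReal.ofReal C := by
  have hmn' : (m : ℝ) + 2 ≤ n := by exact_mod_cast hmn
  have hD : 0 < ((n : ℝ) - m - 1) / 2 + 1 / (P - 2) := by
    have h1 : 0 < 1 / (P - 2) := one_div_pos.2 (by linarith)
    have h2 : 0 < ((n : ℝ) - m - 1) / 2 := by linarith
    linarith
  have hq : 0 < q := by
    by_contra hc
    have : (q - 2) * (((n : ℝ) - m - 1) / 2 + 1 / (P - 2)) ≤ 0 :=
      mul_nonpos_of_nonpos_of_nonneg (by linarith) hD.le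
    linarith
  obtain ⟨C, hC, hl⟩ := lift_shadow' n m hm hmn P q hP
    ((2 * Real.pi) ^ (1 + m) * (|A| + 1) ^ P) (by positivity) h
  refine ⟨C ^ (1 / q), fun v hv G hGm hG hGA => ?_⟩
  have h1 := hl v hv G hGm hG (T_of_ft P (by linarith) A G hGm hGA)
  exact ft_of_T q hq C hC.le (fun x => G (shadow v x)) (hGm.comp (shadow_meas v)) h1

theorem ft_smul {n : ℕ} (c : ℂ) (g : sphere (0 : E n) 1 → ℂ) (ξ : E n) :
    ft (fun x => c * g x) ξ = c * ft g ξ := by
  unfold ft
  rw [← integral_const_mul]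
  refine integral_congr_ae (Filter.Eventually.of_forall fun x => ?_)
  simp only
  ring

/-- the full range -/
theorem lifting_full (n m : ℕ) (hm : 1 ≤ m) (hmn : m + 2 ≤ n) (v : Fin m → E n)
    (hv : Orthonormal ℝ v) (G : E (1 + m) → ℂ) (hGm : Measurable G) (B : ℝ)
    (hG : ∀ y, ‖G y‖ ≤ B) (h : Full (1 + m) fun y => G y) : Full n (lift v G) := by
  intro q hq
  obtain ⟨P, hP, hPm, h1⟩ := exists_P_full n m hm hmn q hq
  -- normalisation
  set B' : ℝ := |B| + 1 with hB'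
  have hB'0 : 0 < B' := by positivity
  set G' : E (1 + m) → ℂ := fun y => ((B'⁻¹ : ℝ) : ℂ) * G y with hG'
  have hG'm : Measurable G' := hGm.const_mul _
  have hG'b : ∀ y, ‖G' y‖ ≤ 1 := by
    intro y
    rw [hG']
    simp only [norm_mul, Complex.norm_real, Real.norm_of_nonneg (inv_nonneg.2 hB'0.le)]
    rw [inv_mul_le_iff₀ hB'0, mul_one]
    exact (hG y).trans ((le_abs_self B).trans (by linarith))
  have h2 : MemLp (ft fun y : sphere (0 : E (1 + m)) 1 => G' y) (ENNReal.ofReal P) := by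
    have e : (ft fun y : sphere (0 : E (1 + m)) 1 => G' y) =
        fun ξ => ((B'⁻¹ : ℝ) : ℂ) * ft (fun y : sphere (0 : E (1 + m)) 1 => G y) ξ := by
      funext ξ
      exact ft_smul _ _ ξ
    rw [e]
    exact (h P hPm).const_mul _
  obtain ⟨C, hC⟩ := lifting n m hm hmn P q
    (eLpNorm (ft fun y : sphere (0 : E (1 + m)) 1 => G' y) (ENNReal.ofReal P)).toReal hP h1
  have h3 := (hC v hv G' hG'm hG'b (by rw [ENNReal.ofReal_toReal h2.2.ne])).1
  have e : ft (lift v G) = fun ξ => (B' : ℂ) * ft (lift v G') ξ := by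
    funext ξ
    rw [← ft_smul]
    congr 1
    funext x
    unfold lift
    rw [hG']
    simp only
    rw [← mul_assoc, ← Complex.ofReal_mul, mul_inv_cancel₀ hB'0.ne', Complex.ofReal_one, one_mul]
  rw [e]
  exact h3.const_mul _

/-- **Theorem.** Let `1 ≤ m ≤ n - 2`.

1. (With exponents.) Let `P > 2` and `(q - 2)((n-m-1)/2 + 1/(P-2)) > 1`. For all orthonormal
`v_1, …, v_m` in `ℝ^n` and all measurable `G` with `|G| ≤ 1` for which the Fourier transform of
`G dσ` has `L^P(ℝ^(1+m))` norm at most `A`, the Fourier transform of `lift v G dσ` is in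
`L^q(ℝ^n)`, with norm at most `C = C(n, m, P, q, A)`.

2. (Full range.) If `G` is bounded and measurable and the Fourier transform of `G dσ` is in
`L^p(ℝ^(1+m))` for all `p > 2(m+1)/m`, then the Fourier transform of `lift v G dσ` is in
`L^p(ℝ^n)` for all `p > 2n/(n-1)`. -/
theorem result (n m : ℕ) (hm : 1 ≤ m) (hmn : m + 2 ≤ n) :
    (∀ P q A : ℝ, 2 < P → 1 < (q - 2) * (((n : ℝ) - m - 1) / 2 + 1 / (P - 2)) →
      ∃ C : ℝ, ∀ v : Fin m → E n, Orthonormal ℝ v → ∀ G : E (1 + m) → ℂ, Measurable G →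
        (∀ y, ‖G y‖ ≤ 1) →
        eLpNorm (ft fun y : sphere (0 : E (1 + m)) 1 => G y) (ENNReal.ofReal P) ≤
          ENNReal.ofReal A →
        MemLp (ft (lift v G)) (ENNReal.ofReal q) ∧
        eLpNorm (ft (lift v G)) (ENNReal.ofReal q) ≤ ENNReal.ofReal C) ∧
    (∀ v : Fin m → E n, Orthonormal ℝ v →
      ∀ G : E (1 + m) → ℂ, Measurable G → (∃ B : ℝ, ∀ y, ‖G y‖ ≤ B) →
        Full (1 + m) (fun y => G y) → Full n (lift v G)) := by
  refine ⟨fun P q A hP h => lifting n m hm hmn P q A hP h, ?_⟩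
  rintro v hv G hGm ⟨B, hB⟩ h
  exact lifting_full n m hm hmn v hv G hGm B hB h

end Pool.Agent.Results.MP_6cbfb8_an.RotationalLifts
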