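import Pool.Agent.U610.UE.Main2

set_option autoImplicit false

/-!
# Stein's restriction conjecture for unconditional spherical harmonic expansions

Let `n ≥ 3`, let `σ` be the surface measure of the unit sphere of `ℝ^n` and let
`2n/(n-1) < q < 4` (for `q ≥ 2(n+1)/(n-1)`, in particular for `q ≥ 4`, the Stein-Tomas theorem settles
the question). Let `g = ∑ Y_k` be the expansion of a function on the sphere in spherical harmonics.

Theorem. If all the finite signed sums `∑ ± Y_k` have norm at most `M` in `L^q(σ)`, that is, if the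
expansion is unconditional in `L^q(σ)`, then `‖(g dσ)^‖_{L^q(ℝ^n)} ≤ C(n,q) M`: this is the full
conjectured range. More generally it is enough that the signed sums over subsets of the dyadic
blocks `2^j ≤ k < 2^(j+1)` have norm at most `2^(jδ) M` for one `δ < (n-1)(1/2-1/q) - 1/q`. (For
every `g` in `L^q(σ)` this is true with `δ = (n-1)(1/2-1/q)`, as sign changes preserve the norm of
`L^2(σ)`.)

Proof. `(Y_k dσ)^(rω)` is `r^(1-n/2) J_(k+n/2-1)(2πr) Y_k(ω)` up to a constant factor. With
`t = 2πr`, the Bessel factor of the degree `k` has its turning point at `t = ρ_k ≈ k`, and it is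
`O(t^(-1/4) |t-ρ_k|^(-1/4))` at the distance `|t-ρ_k|` from it. For the degrees with
`|t-ρ_k| ≈ 2^i ≤ t` the contraction principle bounds the norm of the sum by that size times the
unconditional norm of the set of these degrees, which is a window of length `2^i`. The `q`-th powers
of the unconditional norms are superadditive over disjoint sets of degrees (cotype `q`, by
Clarkson's inequality), and when `t` runs through a cell of length `2^i` the window meets a bounded
number of cells. So, with `γ = (n-1)(q-2)/2`, the integral over `t` of the `i`-th part is at most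
`C (2^i)^(1-γ)` times the `q`-th power of the whole unconditional norm, which can be summed over `i`
exactly when `q > 2n/(n-1)`. For sums of degrees at least `T` there is a gain of a power of `T`; it
pays for the growth of the constants of the dyadic blocks.
-/

open MeasureTheory Metric Set Filter Topology
open scoped ENNReal RealInnerProductSpace NNReal

namespace Pool.Agent.Results.MP_6cbfb8_an.UnconditionalExpansions

/-- `ℝ^n` -/
abbrev E (n : ℕ) := EuclideanSpace ℝ (Fin n)

/-- the unit sphere of `ℝ^n` -/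
abbrev Sph (n : ℕ) := sphere (0 : E n) 1

/-- surface measure on the unit sphere -/
noncomputable def sigma (n : ℕ) : Measure (Sph n) := (volume : Measure (E n)).toSphere

/-- the Fourier transform of `g dσ` -/
noncomputable def ft {n : ℕ} (g : Sph n → ℂ) (ξ : E n) : ℂ :=
  ∫ x, Complex.exp (-(2 * Real.pi * ⟪(x : E n), ξ⟫ : ℝ) * Complex.I) * g x ∂(sigma n)

/-- the value of a polynomial at a point of the sphere -/
noncomputable def ev {n : ℕ} (P : MvPolynomial (Fin n) ℝ) (x : Sph n) : ℝ :=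
  MvPolynomial.eval (fun i => (x : E n) i) P

/-- `P` restricts to a real spherical harmonic of degree `k`: its degree is at most `k` and on the
sphere it is orthogonal to all the polynomials of degree less than `k` -/
def IsHarmonic {n : ℕ} (k : ℕ) (P : MvPolynomial (Fin n) ℝ) : Prop :=
  P.totalDegree ≤ k ∧ ∀ Q : MvPolynomial (Fin n) ℝ, Q.totalDegree < k →
    ∫ x, ev P x * ev Q x ∂(sigma n) = 0

/-- `f` is a (complex) spherical harmonic of degree `k` (or zero) -/
def SphericalHarmonic {n : ℕ} (k : ℕ) (f : Sph n → ℂ) : Prop :=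
  ∃ P Q : MvPolynomial (Fin n) ℝ, IsHarmonic k P ∧ IsHarmonic k Q ∧
    ∀ x, f x = (ev P x : ℂ) + (ev Q x : ℂ) * Complex.I

/-- Let `n ≥ 3`, `2n/(n-1) < q < 4` and `0 ≤ δ < (n-1)(1/2-1/q) - 1/q`. If `g` is the sum in `L^1(σ)`
of its spherical harmonics `Y_k` and the signed sums of the `Y_k` within the dyadic block
`2^j ≤ k < 2^(j+1)` (for `j = 0` also `k = 0`) have norm at most `2^(jδ) M` in `L^q(σ)`, for all
`j`, then `‖(g dσ)^‖_{L^q(ℝ^n)} ≤ C M` with `C` depending on `n`, `q`, `δ` only. -/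
theorem result (n : ℕ) (hn : 3 ≤ n) (q δ : ℝ) (hq : 2 * (n : ℝ) / ((n : ℝ) - 1) < q) (hq4 : q < 4)
    (hδ0 : 0 ≤ δ) (hδ : δ < ((n : ℝ) - 1) * (1 / 2 - 1 / q) - 1 / q) :
    ∃ C : ℝ≥0, ∀ (Y : ℕ → Sph n → ℂ) (g : Sph n → ℂ) (M : ℝ≥0∞),
      (∀ k, SphericalHarmonic k (Y k)) →
      (∀ (j : ℕ) (J : Finset ℕ) (ε : ℕ → ℤˣ), (∀ k ∈ J, Nat.log 2 k = j) →
        eLpNorm (fun x => ∑ k ∈ J, ((ε k : ℤ) : ℂ) * Y k x) (ENNReal.ofReal q) (sigma n) ≤
          ENNReal.ofReal (((2 : ℝ) ^ j) ^ δ) * M) →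
      Integrable g (sigma n) →
      Tendsto (fun N => ∫⁻ x, ‖g x - ∑ k ∈ Finset.range N, Y k x‖ₑ ∂(sigma n)) atTop (𝓝 0) →
      eLpNorm (ft g) (ENNReal.ofReal q) volume ≤ C * M := by
  obtain ⟨c, rfl⟩ : ∃ c, n = c + 2 := ⟨n - 2, by omega⟩
  have hc1 : 1 ≤ c := by omega
  have hc' : (1 : ℝ) ≤ c := by exact_mod_cast hc1
  have e0 : 2 * ((c + 2 : ℕ) : ℝ) / (((c + 2 : ℕ) : ℝ) - 1) = 2 + 2 / ((c : ℝ) + 1) := by
    push_cast
    have : (c : ℝ) + 1 ≠ 0 := by positivity
    have h2 : (c : ℝ) + 2 - 1 = c + 1 := by ring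
    rw [h2]
    field_simp
    ring
  have hq2 : 2 < q := by
    rw [e0] at hq
    have : 0 < 2 / ((c : ℝ) + 1) := by positivity
    linarith
  have hqd : q * δ < Pool.Agent.N303.SH.sc c * (q - 2) - 1 := by
    have hq0 : 0 < q := by linarith
    have h1 := mul_lt_mul_of_pos_left hδ hq0
    refine h1.trans_le (le_of_eq ?_)
    unfold Pool.Agent.N303.SH.sc
    push_cast
    field_simp
    ring
  obtain ⟨C, hC⟩ := Pool.Agent.U610.UE.s_dya c hc1 q δ hq2 hq4 hδ0 hqd
  refine ⟨C, fun Y g M hY hM hg ht => hC Y g M ⟨?_, ?_⟩ hM hg ht⟩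
  · intro k
    obtain ⟨P, Q, -, -, h⟩ := hY k
    have h2 : Y k = fun x => (Pool.Agent.N303.SH.vC P x : ℂ) + (Pool.Agent.N303.SH.vC Q x : ℂ) * Complex.I := by
      funext x
      rw [h x, Pool.Agent.N303.SH.vC_apply, Pool.Agent.N303.SH.vC_apply]
      rfl
    rw [h2]
    fun_prop
  · intro k r w
    obtain ⟨P, Q, hP, hQ, h⟩ := hY k
    have hev : ∀ (Q : MvPolynomial (Fin (c + 2)) ℝ) (x : Sph (c + 2)),
        Pool.Agent.N303.SH.vC Q x = ev Q x := fun Q x => Pool.Agent.N303.SH.vC_apply Q x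
    have hH : ∀ P : MvPolynomial (Fin (c + 2)) ℝ, IsHarmonic k P →
        Pool.Agent.N303.SH.vC P ∈ Pool.Agent.N303.SH.H (c + 2) k := by
      intro P hP
      refine ⟨Pool.Agent.N303.SH.mem_P.2 ⟨P, hP.1, rfl⟩, fun j hj f hf => ?_⟩
      obtain ⟨R, hR, rfl⟩ := Pool.Agent.N303.SH.mem_P.1 hf
      have h1 := hP.2 R (lt_of_le_of_lt hR hj)
      unfold Pool.Agent.N303.SH.ip
      simp only [hev]
      rw [← h1]
      refine integral_congr_ae (Eventually.of_forall fun x => ?_)
      simp only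
      ring
    have h2 : Y k = fun x => (Pool.Agent.N303.SH.vC P x : ℂ) + (Pool.Agent.N303.SH.vC Q x : ℂ) * Complex.I := by
      funext x
      rw [h x, hev, hev]
    have hf : ∀ F ∈ Pool.Agent.N303.SH.H (c + 2) k, Pool.Agent.N303.SH.ft (fun x => (F x : ℂ)) (r • (w : E (c + 2))) =
        Pool.Agent.N303.SH.Ic c k r * F w := by
      intro F hF
      unfold Pool.Agent.N303.SH.ft Pool.Agent.N303.SH.Ic
      exact Pool.Agent.N303.SH.FHc (Pool.Agent.N303.SH.on_e c) k hF r w
    have hI : ∀ F : C(Sph (c + 2), ℝ), Integrable (fun x : Sph (c + 2) =>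
        Complex.exp (-(2 * Real.pi * ⟪(x : E (c + 2)), r • (w : E (c + 2))⟫ : ℝ) * Complex.I) * (F x : ℂ))
          (Pool.Agent.N303.SH.sg (c + 2)) := by
      intro F
      apply Pool.Agent.N303.SH.int_cc
      fun_prop
    rw [h2]
    have h3 : Pool.Agent.N303.SH.ft (fun x => (Pool.Agent.N303.SH.vC P x : ℂ) +
        (Pool.Agent.N303.SH.vC Q x : ℂ) * Complex.I) (r • (w : E (c + 2))) =
        Pool.Agent.N303.SH.ft (fun x => (Pool.Agent.N303.SH.vC P x : ℂ)) (r • (w : E (c + 2))) +
        Pool.Agent.N303.SH.ft (fun x => (Pool.Agent.N303.SH.vC Q x : ℂ)) (r • (w : E (c + 2))) * Complex.I := by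
      unfold Pool.Agent.N303.SH.ft
      rw [← integral_mul_const, ← integral_add (hI _) ((hI _).mul_const _)]
      refine integral_congr_ae (Eventually.of_forall fun x => ?_)
      simp only
      ring
    rw [h3, hf _ (hH P hP), hf _ (hH Q hQ)]
    ring

end Pool.Agent.Results.MP_6cbfb8_an.UnconditionalExpansions
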